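import Mathlib
import Pool.Agent.K.MP_c5202f_co.C0

open Pool.Agent.P.MP_c5202f_co in
theorem Pool.Agent.Results.MP_c5202f_co.NoPairing.result (k w a b : ℕ) (ha : 1 ≤ a) (hb : 1 ≤ b)
    (h : 4000 * (k + 1) ^ 2 * (w + 1) ^ 2 ≤ max a b) :
    ¬ Force w k (board a b) ∧ ∀ s, Legal (board a b) s → ¬ Force w k (board a b \ s) :=
  all k w a b ha hb h
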